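import Pool.Agent.helper14.AU.Spec

/-!
# Project au: (MP_d58e27_lc): module PU, the system of a word is polynomial-time computable
-/

set_option autoImplicit false

namespace Pool.Agent.helper14.AU

open N68a2faeb N793a5b8e Pool.Agent.helper56.SGE Pool.Agent.helper56.SGE.QSys
  Pool.Agent.helper98.Tsei Pool.Agent.H54.PT

lemma PU_descU_eq (e c : ℕ) : descU e c =
    if (if e < 12 ∧ c < 4 then e * 4 + c else 48) < 48 then
      descU ((if e < 12 ∧ c < 4 then e * 4 + c else 48) / 4)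
        ((if e < 12 ∧ c < 4 then e * 4 + c else 48) % 4) else 0 := by
  by_cases h : e < 12 ∧ c < 4
  · rw [if_pos h, if_pos (by omega)]
    have e1 : (e * 4 + c) / 4 = e := by omega
    have e2 : (e * 4 + c) % 4 = c := by omega
    rw [e1, e2]
  · rw [if_neg h, if_neg (by omega)]
    unfold descU
    rcases Nat.lt_or_ge e 12 with h1 | h1
    · have h3 : 4 ≤ c := by omega
      have : ∀ (e : Fin 12), (tabU.getD e []).length ≤ 4 := by decide
      exact List.getD_eq_default _ _ (le_trans (this ⟨e, h1⟩) h3)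
    · have : tabU.length ≤ 12 := by decide
      rw [List.getD_eq_default tabU [] (le_trans this h1)]
      rfl

lemma PU_descU : Cp (fun _ v => descU (v 0) (v 1)) := by
  refine Cp.congr ?_ (fun _ v => (PU_descU_eq (v 0) (v 1)).symm)
  refine Cp.table 48 (fun n => descU (n / 4) (n % 4)) ?_
  exact Cp.ite (Cq.and (Cq.lt (Cp.var 0) (Cp.const 12)) (Cq.lt (Cp.var 1) (Cp.const 4)))
    (((Cp.var 0).mul (Cp.const 4)).add (Cp.var 1)) (Cp.const 48)

lemma PU_prefU : Cp (fun _ v => prefU (v 0) (v 1) (v 2)) := by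
  unfold prefU
  have c (n : ℕ) : Cp (fun _ _ => n) := Cp.const n
  refine Cp.ite (Cq.lt (Cp.var 2) (c 2)) (Cp.var 2) (Cp.ite (Cq.eq (Cp.var 2) (c 2))
    (((c 16).mul (Cp.var 1)).add (c 2)) ?_)
  exact ((((c 16).mul (Cp.var 0)).add ((c 16).mul (Cp.var 1))).add
    ((Cp.var 2).sub (c 3))).add (c 2)

lemma PU_mU : Cp (fun x _ => mU (len x)) := by
  unfold mU
  exact (((Cp.const 8).mul cp_len).add (cp_len.mul cp_len)).add (Cp.const 1)

lemma PU_rep : Cq (fun x v => Rep (tokw x) (len x) (v 0)) := by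
  unfold Rep
  have t1 : Cp (fun x v => tokw x (v 0 + 1)) :=
    Cp.comp1 (g := fun x a => tokw x a) cp_tok ((Cp.var 0).add (Cp.const 1))
  refine Cq.and (Cq.eq cp_tok (Cp.const 3)) (Cq.and (Cq.ne t1 (Cp.const 2)) ?_)
  exact Cq.all' (P := fun x v t => ¬ Same (tokw x) (len x) t (v 0)) (Cp.var 0) cq_same.not

open Classical in
theorem PU : PU_stmt := by
  have c (n : ℕ) : Cp (fun _ _ => n) := Cp.const n
  refine ⟨?_, ?_, ?_, ?_⟩
  · refine (Cp.ite cq_good ((c 32).mul cp_len) (c 0)).congr fun x v => ?_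
    unfold sysU
    split_ifs <;> rfl
  · refine (Cp.ite cq_good (PU_mU.add ((c 12).mul cp_len)) (c 1)).congr fun x v => ?_
    unfold sysU
    split_ifs <;> rfl
  · have k0 : Cp (fun x v => (v 0 - mU (len x)) / 12) := ((Cp.var 0).sub PU_mU).div (c 12)
    have k1 : Cp (fun x v => (v 0 - mU (len x)) % 12) := ((Cp.var 0).sub PU_mU).mod (c 12)
    have h1 : Cp (fun x v => prefU (len x) ((v 0 - mU (len x)) / 12)
        (descU ((v 0 - mU (len x)) % 12) (v 1))) :=
      Cp.comp3 (g := fun _ a b d => prefU a b d) PU_prefU cp_len k0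
        (Cp.comp2 (g := fun _ a b => descU a b) PU_descU k1 (Cp.var 1))
    refine (Cp.ite cq_good (Cp.ite (Cq.lt (Cp.var 0) PU_mU) cp_lref h1)
      (Cp.ite (Cq.le (Cp.var 1) (c 1)) (c 1) (c 0))).congr fun x v => ?_
    unfold sysU
    split_ifs <;> simp_all
  · unfold MU
    refine Cq.and cq_good ?_
    refine Cq.ex' (P := fun x v i => Rep (tokw x) (len x) i ∧
      (v 0 = 16 * len x + 16 * i + 2 ∨ v 0 = 16 * len x + 16 * i + 3)) cp_len ?_
    have e1 : Cp (fun x v => 16 * len x + 16 * v 0) :=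
      ((c 16).mul cp_len).add ((c 16).mul (Cp.var 0))
    exact Cq.and PU_rep ((Cq.eq (Cp.var 1) (e1.add (c 2))).or (Cq.eq (Cp.var 1) (e1.add (c 3))))

end Pool.Agent.helper14.AU
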